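import Pool.Agent.H.MP_df7994_gt.PI.Defs

/-!
# Module Alg: linear algebra in `ℝ⁴ × ℝ`
-/

set_option autoImplicit false

namespace Pool.Agent.H.MP_df7994_gt.PI

open Set Topology

private theorem Alg_add (V X Y : V5) : dt V (X + Y) = dt V X + dt V Y := by
  unfold dt
  simp only [Fin.sum_univ_four, Prod.fst_add, Prod.snd_add, Pi.add_apply]
  ring

private theorem Alg_smul (V X : V5) (r : ℝ) : dt V (r • X) = r * dt V X := by
  unfold dt
  simp only [Fin.sum_univ_four, Prod.smul_fst, Prod.smul_snd, Pi.smul_apply, smul_eq_mul]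
  ring

private theorem Alg_zero (V : V5) : dt V 0 = 0 := by
  unfold dt
  simp

theorem dt_self_pos {V : V5} (h : V ≠ 0) : 0 < dt V V := by
  unfold dt
  by_cases h2 : V.2 = 0
  · have h1 : V.1 ≠ 0 := fun h1 => h (Prod.ext h1 h2)
    have h3 := sq_pos_of_ne h1
    have h4 : ∑ i, V.1 i * V.1 i = ∑ i, V.1 i ^ 2 := Finset.sum_congr rfl fun i _ => by ring
    rw [h4, h2]
    linarith
  · have h3 : 0 < V.2 * V.2 := mul_self_pos.2 h2
    have h4 : 0 ≤ ∑ i, V.1 i * V.1 i := Finset.sum_nonneg fun i _ => mul_self_nonneg _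
    linarith

theorem tr_self (V : V5) (F : Fin 4 → V5) : tr V V F = F := by
  funext j
  unfold tr
  rw [sub_self, smul_zero, add_zero]

/-- Let `X = ∑ c j • F j`, `l = dt V X / dt V V`. The relation is
`(X - l V) + (l + s) W = 0`; `dt V` of it gives `(l + s) dt V W = 0`, so `s = - l`, `X - l V = 0`. -/
theorem ind_tr {F : Fin 4 → V5} {V W : V5} (h : Ind F V) (hd : 0 < dt V W) :
    Ind (tr V W F) W := by
  intro c s h0
  have hV : V ≠ 0 := by
    intro hV
    rw [hV] at hd
    unfold dt at hd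
    simp at hd
  have hVV := dt_self_pos hV
  obtain ⟨X, hX⟩ : ∃ X, X = ∑ j, c j • F j := ⟨_, rfl⟩
  have hl : dt V X = ∑ j, c j * dt V (F j) := by
    rw [hX]
    simp only [Fin.sum_univ_four, Alg_add, Alg_smul]
  have e1 : ∑ j, c j • tr V W F j = X + (dt V X / dt V V) • (W - V) := by
    rw [hl, hX]
    unfold tr
    simp only [smul_add, Finset.sum_add_distrib, smul_smul]
    rw [← Finset.sum_smul, Finset.sum_div]
    congr 2
    refine Finset.sum_congr rfl fun j _ => ?_
    ring
  rw [e1] at h0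
  obtain ⟨m, hm⟩ : ∃ m, m = dt V X / dt V V := ⟨_, rfl⟩
  rw [← hm] at h0
  have hm2 : m * dt V V = dt V X := by
    rw [hm, div_mul_cancel₀ _ hVV.ne']
  have h1 : dt V (X + m • (W - V) + s • W) = 0 := by rw [h0, Alg_zero]
  have h2 : dt V (W - V) = dt V W - dt V V := by
    have := Alg_add V (W - V) V
    rw [sub_add_cancel] at this
    linarith
  rw [Alg_add, Alg_add, Alg_smul, Alg_smul, h2] at h1
  have h3 : (m + s) * dt V W = 0 := by
    have : (m + s) * dt V W = dt V X + m * (dt V W - dt V V) + s * dt V W - (dt V X - m * dt V V) := by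
      ring
    rw [this, h1, hm2]
    ring
  have h4 : m + s = 0 := (mul_eq_zero.1 h3).resolve_right hd.ne'
  refine h c (-m) ?_
  rw [← hX]
  have h5 : X + (-m) • V = X + m • (W - V) + s • W - (m + s) • W := by
    rw [smul_sub, add_smul, neg_smul]
    abel
  rw [h5, h0, h4, zero_smul, sub_zero]

/-- If `qq F V` kills `c ≠ 0` (Matrix.exists_mulVec_eq_zero_iff), then `X = ∑ c j • F j` is
`(X.2 / V.2) • V`. -/
theorem det_qq {F : Fin 4 → V5} {V : V5} (h : Ind F V) (h2 : V.2 ≠ 0) : (qq F V).det ≠ 0 := by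
  intro h0
  obtain ⟨c, hc, hk⟩ := Matrix.exists_mulVec_eq_zero_iff.2 h0
  obtain ⟨X, hX⟩ : ∃ X, X = ∑ j, c j • F j := ⟨_, rfl⟩
  have hX1 : ∀ i, X.1 i = ∑ j, c j * (F j).1 i := by
    intro i
    rw [hX]
    simp [Fin.sum_univ_four]
  have hX2 : X.2 = ∑ j, c j * (F j).2 := by
    rw [hX]
    simp [Fin.sum_univ_four]
  refine hc (h c (-(X.2 / V.2)) ?_)
  rw [← hX]
  refine Prod.ext ?_ ?_
  · funext i
    have h3 := congrFun hk i
    simp only [Matrix.mulVec, dotProduct, qq, Matrix.of_apply, Fin.sum_univ_four,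
      Pi.zero_apply] at h3
    rw [Prod.fst_add, Pi.add_apply, hX1, Prod.smul_fst, Pi.smul_apply, smul_eq_mul, hX2]
    simp only [Fin.sum_univ_four, Prod.fst_zero, Pi.zero_apply]
    rw [← h3]
    field_simp
    ring
  · rw [Prod.snd_add, Prod.smul_snd, smul_eq_mul, Prod.snd_zero]
    field_simp
    ring

theorem continuous_dt {X : Type*} [TopologicalSpace X] {V W : X → V5}
    (hV : Continuous V) (hW : Continuous W) : Continuous fun x => dt (V x) (W x) := by
  unfold dt
  refine (continuous_finsetSum _ fun i _ => ?_).add (hV.snd.mul hW.snd)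
  exact ((continuous_apply i).comp hV.fst).mul ((continuous_apply i).comp hW.fst)

theorem continuous_tr {X : Type*} [TopologicalSpace X] {V W : X → V5} {F : X → Fin 4 → V5}
    (hV : Continuous V) (hW : Continuous W) (hF : Continuous F) (h0 : ∀ x, V x ≠ 0) :
    Continuous fun x => tr (V x) (W x) (F x) := by
  refine continuous_pi fun j => ?_
  have hj : Continuous fun x => F x j := (continuous_apply j).comp hF
  exact hj.add (((continuous_dt hV hj).div (continuous_dt hV hV)
    fun x => (dt_self_pos (h0 x)).ne').smul (hW.sub hV))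

theorem continuous_qq {X : Type*} [TopologicalSpace X] {V : X → V5} {F : X → Fin 4 → V5}
    (hV : Continuous V) (hF : Continuous F) (h0 : ∀ x, (V x).2 ≠ 0) :
    Continuous fun x => qq (F x) (V x) := by
  refine continuous_matrix fun i j => ?_
  have hj : Continuous fun x => F x j := (continuous_apply j).comp hF
  exact ((continuous_apply i).comp hj.fst).sub
    ((hj.snd.div hV.snd h0).mul ((continuous_apply i).comp hV.fst))

end Pool.Agent.H.MP_df7994_gt.PI
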