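import Pool.Agent.H.MP_df7994_gt.PI.Alg

/-!
# Module Sml: small steps
-/

set_option autoImplicit false

namespace Pool.Agent.H.MP_df7994_gt.PI

open Set Topology

private theorem Sml_red (x : V4) : ∃ v : Fin 4 → ℤ, x + iv v ∈ Icc (0 : V4) 1 := by
  refine ⟨fun i => - ⌊x i⌋, ?_, ?_⟩
  · intro i
    have h := Int.floor_le (x i)
    simp only [Pi.zero_apply, Pi.add_apply, iv, Int.cast_neg]
    linarith
  · intro i
    have h := (Int.lt_floor_add_one (x i)).le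
    simp only [Pi.one_apply, Pi.add_apply, iv, Int.cast_neg]
    linarith

/-- Proof: the function `(τ, σ, x, t) ↦ dt (V τ x t) (V σ x t)` is continuous and positive for
`τ = σ`. If the statement is false, there are for each `n > 0` an `i < n` and `x, t` with
`dt ≤ 0`, and by periodicity and `hcl` one can take `x ∈ [0,1]⁴`, `t ∈ [0,1]`; a convergent
subsequence of `(i/n, (i+1)/n, x, t)` has a limit `(τ, τ, x, t)` with `dt ≤ 0`. (Or use uniform
continuity on the compact set.) -/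
theorem small_steps {V : ℝ → V4 → ℝ → V5}
    (hc : Continuous fun p : ℝ × V4 × ℝ => V p.1 p.2.1 p.2.2)
    (hp : ∀ τ x t (v : Fin 4 → ℤ), V τ (x + iv v) t = V τ x t)
    (hcl : ∀ τ x t, V τ x t = V τ x (cl t)) (hne : ∀ τ x t, V τ x t ≠ 0) :
    ∃ n : ℕ, 0 < n ∧ ∀ i : ℕ, i < n → ∀ x t,
      0 < dt (V ((i : ℝ) / n) x t) (V (((i : ℝ) + 1) / n) x t) := by
  let Φ : ℝ × ℝ × V4 × ℝ → ℝ := fun p => dt (V p.1 p.2.2.1 p.2.2.2) (V (p.1 + p.2.1) p.2.2.1 p.2.2.2)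
  have hΦ : Continuous Φ := by
    refine continuous_dt ?_ ?_
    · exact hc.comp (continuous_fst.prodMk (continuous_snd.snd.fst.prodMk continuous_snd.snd.snd))
    · exact hc.comp ((continuous_fst.add continuous_snd.fst).prodMk
        (continuous_snd.snd.fst.prodMk continuous_snd.snd.snd))
  let K : Set (ℝ × V4 × ℝ) := Icc (0 : ℝ) 1 ×ˢ (Icc (0 : V4) 1 ×ˢ Icc (0 : ℝ) 1)
  have hK : IsCompact K := isCompact_Icc.prod (isCompact_Icc.prod isCompact_Icc)
  -- uniform positivity near the zero shift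
  have hev : ∀ᶠ δ in 𝓝 (0 : ℝ), ∀ q ∈ K, 0 < dt (V q.1 q.2.1 q.2.2) (V (q.1 + δ) q.2.1 q.2.2) := by
    refine hK.eventually_forall_of_forall_eventually fun q _ => ?_
    have h1 : Continuous fun z : ℝ × (ℝ × V4 × ℝ) =>
        dt (V z.2.1 z.2.2.1 z.2.2.2) (V (z.2.1 + z.1) z.2.2.1 z.2.2.2) :=
      hΦ.comp (continuous_snd.fst.prodMk (continuous_fst.prodMk
        (continuous_snd.snd.fst.prodMk continuous_snd.snd.snd)))
    have h2 : 0 < dt (V q.1 q.2.1 q.2.2) (V (q.1 + 0) q.2.1 q.2.2) := by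
      rw [add_zero]
      exact dt_self_pos (hne _ _ _)
    exact (h1.tendsto (((0 : ℝ), q) : ℝ × (ℝ × V4 × ℝ))).eventually (lt_mem_nhds h2)
  obtain ⟨ε, hε, hball⟩ := Metric.eventually_nhds_iff.1 hev
  obtain ⟨n, hn⟩ := exists_nat_one_div_lt hε
  refine ⟨n + 1, Nat.succ_pos n, fun i hi x t => ?_⟩
  have hn1 : (0 : ℝ) < ((n + 1 : ℕ) : ℝ) := Nat.cast_pos.2 (Nat.succ_pos n)
  obtain ⟨v, hv⟩ := Sml_red x
  have h1 : dist (1 / ((n + 1 : ℕ) : ℝ)) 0 < ε := by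
    rw [Real.dist_eq, sub_zero, abs_of_pos (div_pos one_pos hn1)]
    push_cast
    exact hn
  have h2 := hball h1 ((i : ℝ) / ((n + 1 : ℕ) : ℝ), x + iv v, cl t)
    ⟨⟨div_nonneg (Nat.cast_nonneg i) hn1.le, (div_le_one hn1).2 (Nat.cast_le.2 hi.le)⟩, hv, cl_mem t⟩
  dsimp only at h2
  rw [hp, hp, ← hcl, ← hcl, ← add_div] at h2
  exact h2

end Pool.Agent.H.MP_df7994_gt.PI
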