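import Pool.Agent.H.MP_df7994_gt.PI.Stp
import Pool.Agent.H.MP_df7994_gt.PI.Sml

/-!
# Module Chn: the transport of the frame
-/

set_option autoImplicit false

namespace Pool.Agent.H.MP_df7994_gt.PI

open Set Topology

private theorem Chn_frames {V : ℝ → V4 → ℝ → V5} {F : V4 → ℝ → Fin 4 → V5}
    (hc : Continuous fun p : ℝ × V4 × ℝ => V p.1 p.2.1 p.2.2)
    (hp : ∀ τ x t (v : Fin 4 → ℤ), V τ (x + iv v) t = V τ x t)
    (hne : ∀ τ x t, V τ x t ≠ 0)
    (hF : Continuous fun p : V4 × ℝ => F p.1 p.2)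
    (pF : ∀ x t (v : Fin 4 → ℤ), F (x + iv v) t = F x t)
    (ind : ∀ x t, Ind (F x t) (V 0 x t))
    (h0 : ∀ τ x, 0 < (V τ x 0).2) (h1 : ∀ τ x, 0 < (V τ x 1).2)
    (n : ℕ) (hn : ∀ i : ℕ, i < n → ∀ x t,
      0 < dt (V ((i : ℝ) / n) x t) (V (((i : ℝ) + 1) / n) x t)) (i : ℕ) (hi : i ≤ n) :
    ∃ F' : V4 → ℝ → Fin 4 → V5, (Continuous fun p : V4 × ℝ => F' p.1 p.2) ∧
      (∀ x t (v : Fin 4 → ℤ), F' (x + iv v) t = F' x t) ∧
      (∀ x t, Ind (F' x t) (V ((i : ℝ) / n) x t)) ∧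
      GH (fun x => qq (F x 0) (V 0 x 0)) (fun x => qq (F' x 0) (V ((i : ℝ) / n) x 0)) ∧
      GH (fun x => qq (F x 1) (V 0 x 1)) (fun x => qq (F' x 1) (V ((i : ℝ) / n) x 1)) := by
  have cV : ∀ τ t, Continuous fun x : V4 => V τ x t := fun τ t =>
    hc.comp (Continuous.prodMk continuous_const (Continuous.prodMk continuous_id continuous_const))
  have cV2 : ∀ τ, Continuous fun p : V4 × ℝ => V τ p.1 p.2 := fun τ =>
    hc.comp (Continuous.prodMk continuous_const (Continuous.prodMk continuous_fst continuous_snd))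
  have cs : ∀ {K : V4 → ℝ → Fin 4 → V5}, (Continuous fun p : V4 × ℝ => K p.1 p.2) →
      ∀ t, Continuous fun x : V4 => K x t := fun {K} hK t =>
    hK.comp (Continuous.prodMk continuous_id continuous_const)
  induction i with
  | zero =>
    have e : ((0 : ℕ) : ℝ) / n = 0 := by rw [Nat.cast_zero, zero_div]
    refine ⟨F, hF, pF, fun x t => ?_, ?_, ?_⟩
    · rw [e]
      exact ind x t
    · rw [e]
      refine GH.refl (continuous_qq (cV 0 0) (cs hF 0) fun x => (h0 0 x).ne') (fun x v => ?_)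
        fun x => det_qq (ind x 0) (h0 0 x).ne'
      rw [pF, hp]
    · rw [e]
      refine GH.refl (continuous_qq (cV 0 1) (cs hF 1) fun x => (h1 0 x).ne') (fun x v => ?_)
        fun x => det_qq (ind x 1) (h1 0 x).ne'
      rw [pF, hp]
  | succ i ih =>
    obtain ⟨F', hF', pF', ind', g0, g1⟩ := ih (Nat.le_of_succ_le hi)
    have e : ((i + 1 : ℕ) : ℝ) / n = ((i : ℝ) + 1) / n := by rw [Nat.cast_add, Nat.cast_one]
    have hpos := hn i (Nat.lt_of_succ_le hi)
    rw [e]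
    refine ⟨fun x t => tr (V ((i : ℝ) / n) x t) (V (((i : ℝ) + 1) / n) x t) (F' x t), ?_, ?_, ?_,
      ?_, ?_⟩
    · exact continuous_tr (cV2 _) (cV2 _) hF' fun p => hne _ _ _
    · intro x t v
      dsimp only
      rw [hp, hp, pF']
    · intro x t
      exact ind_tr (ind' x t) (hpos x t)
    · exact g0.trans (step (cV _ 0) (cV _ 0) (cs hF' 0) (fun x v => hp _ x 0 v)
        (fun x v => hp _ x 0 v) (fun x v => pF' x 0 v) (fun x => ind' x 0) (fun x => hpos x 0)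
        (fun x => h0 _ x) fun x => h0 _ x)
    · exact g1.trans (step (cV _ 1) (cV _ 1) (cs hF' 1) (fun x v => hp _ x 1 v)
        (fun x v => hp _ x 1 v) (fun x v => pF' x 1 v) (fun x => ind' x 1) (fun x => hpos x 1)
        (fun x => h1 _ x) fun x => h1 _ x)

theorem chain {V : ℝ → V4 → ℝ → V5} {F : V4 → ℝ → Fin 4 → V5}
    (hc : Continuous fun p : ℝ × V4 × ℝ => V p.1 p.2.1 p.2.2)
    (hp : ∀ τ x t (v : Fin 4 → ℤ), V τ (x + iv v) t = V τ x t)
    (hcl : ∀ τ x t, V τ x t = V τ x (cl t)) (hne : ∀ τ x t, V τ x t ≠ 0)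
    (hF : Continuous fun p : V4 × ℝ => F p.1 p.2)
    (pF : ∀ x t (v : Fin 4 → ℤ), F (x + iv v) t = F x t)
    (ind : ∀ x t, Ind (F x t) (V 0 x t))
    (h0 : ∀ τ x, 0 < (V τ x 0).2) (h1 : ∀ τ x, 0 < (V τ x 1).2) (hone : ∀ x t, 0 < (V 1 x t).2) :
    GH (fun x => qq (F x 0) (V 0 x 0)) (fun x => qq (F x 1) (V 0 x 1)) := by
  obtain ⟨n, hn0, hn⟩ := small_steps hc hp hcl hne
  obtain ⟨F', hF', pF', ind', g0, g1⟩ :=
    Chn_frames hc hp hne hF pF ind h0 h1 n hn n le_rfl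
  have e : ((n : ℕ) : ℝ) / n = 1 := div_self (Nat.cast_ne_zero.2 hn0.ne')
  rw [e] at g0 g1 ind'
  have cH : Continuous fun p : ℝ × V4 => qq (F' p.2 p.1) (V 1 p.2 p.1) :=
    continuous_qq (X := ℝ × V4) (V := fun p => V 1 p.2 p.1) (F := fun p => F' p.2 p.1)
      (hc.comp (Continuous.prodMk continuous_const (Continuous.prodMk continuous_snd continuous_fst)))
      (hF'.comp (Continuous.prodMk continuous_snd continuous_fst)) fun p => (hone _ _).ne'
  have gm : GH (fun x => qq (F' x 0) (V 1 x 0)) (fun x => qq (F' x 1) (V 1 x 1)) := by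
    refine ⟨fun t x => qq (F' x t) (V 1 x t), cH, rfl, rfl, fun t _ x v => ?_, fun t _ x =>
      det_qq (ind' x t) (hone x t).ne'⟩
    dsimp only
    rw [pF', hp]
  exact (g0.trans gm).trans g1.symm

end Pool.Agent.H.MP_df7994_gt.PI
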