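import Pool.Agent.H.MP_df7994_gt.Main

/-!
# Pseudo-isotopies (MP_df7994_gt): definitions
-/

set_option autoImplicit false

namespace Pool.Agent.H.MP_df7994_gt.PI

open Set Topology

/-- `ℝ⁴ × ℝ` -/
abbrev V5 := V4 × ℝ

/-- the inner product of `ℝ⁴ × ℝ` -/
def dt (x y : V5) : ℝ := ∑ i, x.1 i * y.1 i + x.2 * y.2

/-- the vectors `F j` are linearly independent modulo the line of `V` -/
def Ind (F : Fin 4 → V5) (V : V5) : Prop :=
  ∀ (c : Fin 4 → ℝ) (s : ℝ), ∑ j, c j • F j + s • V = 0 → c = 0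

/-- the matrix of the projections along `V` of the vectors `F j` to `ℝ⁴` -/
noncomputable def qq (F : Fin 4 → V5) (V : V5) : M4 :=
  Matrix.of fun i j => (F j).1 i - (F j).2 / V.2 * V.1 i

/-- the linear map `y ↦ y + (⟨V, y⟩ / |V|²) (W - V)`, which takes `V` to `W`, at the vectors `F j` -/
noncomputable def tr (V W : V5) (F : Fin 4 → V5) : Fin 4 → V5 :=
  fun j => F j + (dt V (F j) / dt V V) • (W - V)

/-- homotopic as maps of the torus to the invertible matrices -/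
def GH (A B : V4 → M4) : Prop :=
  ∃ H : ℝ → V4 → M4, Continuous (fun p : ℝ × V4 => H p.1 p.2) ∧ H 0 = A ∧ H 1 = B ∧
    (∀ t ∈ Icc (0 : ℝ) 1, ∀ x (v : Fin 4 → ℤ), H t (x + iv v) = H t x) ∧
    (∀ t ∈ Icc (0 : ℝ) 1, ∀ x, (H t x).det ≠ 0)

/-- the retraction of the line to `[0, 1]` -/
noncomputable def cl (r : ℝ) : ℝ := max 0 (min r 1)

theorem cl_mem (r : ℝ) : cl r ∈ Icc (0 : ℝ) 1 := by
  unfold cl
  exact ⟨le_max_left _ _, max_le zero_le_one (min_le_right _ _)⟩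

theorem cl_eq {r : ℝ} (h : r ∈ Icc (0 : ℝ) 1) : cl r = r := by
  unfold cl
  rw [min_eq_left h.2, max_eq_right h.1]

theorem cl_cl (r : ℝ) : cl (cl r) = cl r := cl_eq (cl_mem r)

theorem cl_zero : cl 0 = 0 := cl_eq ⟨le_refl _, zero_le_one⟩

theorem cl_one : cl 1 = 1 := cl_eq ⟨zero_le_one, le_refl _⟩

theorem continuous_cl : Continuous cl := by
  unfold cl
  exact continuous_const.max (continuous_id.min continuous_const)

/-- `G` is a pseudo-isotopy of the torus (lifted to `ℝ⁴ × ℝ`) from `x ↦ M x + b` to `g` -/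
structure PsIso (M : Matrix (Fin 4) (Fin 4) ℤ) (b : V4) (g : V4 → V4) (G : V5 → V5) : Prop where
  smooth : ContDiff ℝ 1 G
  equiv : ∀ (x : V4) (t : ℝ) (v : Fin 4 → ℤ), G (x + iv v, t) = G (x, t) + (iv (M.mulVec v), 0)
  bij : ∀ (x : V4) (t : ℝ), t ∈ Icc (0 : ℝ) 1 → Function.Bijective (fderiv ℝ G (x, t))
  inj : ∀ (x x' : V4) (t t' : ℝ), t ∈ Icc (0 : ℝ) 1 → t' ∈ Icc (0 : ℝ) 1 → G (x, t) = G (x', t') →
    x = x' ∧ t = t'
  inside : ∀ (x : V4) (t : ℝ), t ∈ Ioo (0 : ℝ) 1 → (G (x, t)).2 ∈ Ioo (0 : ℝ) 1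
  bottom : ∀ x : V4, G (x, 0) = ((M.map (fun m : ℤ => (m : ℝ))).mulVec x + b, 0)
  top : ∀ x : V4, G (x, 1) = (g x, 1)

/-- displacements: the mean of the vertical derivative over the vertical segment from `t` to
`t + τ (1 - t)` -/
noncomputable def VV (G : V5 → V5) (τ : ℝ) (x : V4) (t : ℝ) : V5 :=
  ∫ θ in (0 : ℝ)..1, fderiv ℝ G (x, cl t + θ * (cl τ * (1 - cl t))) (0, 1)

/-- the horizontal derivatives -/
noncomputable def FF (G : V5 → V5) (x : V4) (t : ℝ) : Fin 4 → V5 :=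
  fun j => fderiv ℝ G (x, cl t) (Pi.single j 1, 0)

/-- the Jacobian matrix -/
noncomputable def jac (g : V4 → V4) (x : V4) : M4 :=
  Matrix.of fun i j => fderiv ℝ g x (Pi.single j 1) i

end Pool.Agent.H.MP_df7994_gt.PI
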