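import Pool.Agent.H.MP_df7994_gt.PI.Defs

/-!
# Module DisA: displacements, continuity and the frame
-/

set_option autoImplicit false

namespace Pool.Agent.H.MP_df7994_gt.PI

open Set Topology

variable {M : Matrix (Fin 4) (Fin 4) ℤ} {b : V4} {g : V4 → V4} {G : V5 → V5}

private theorem DisA_cont (h : PsIso M b g G) : Continuous (fderiv ℝ G) :=
  h.smooth.continuous_fderiv (by simp)

private theorem DisA_diff (h : PsIso M b g G) (p : V5) : HasFDerivAt G (fderiv ℝ G p) p :=
  (h.smooth.differentiable (by simp)).differentiableAt.hasFDerivAt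

/-- intervalIntegral.continuous_parametric_intervalIntegral_of_continuous' -/
theorem VV_continuous (h : PsIso M b g G) :
    Continuous fun p : ℝ × V4 × ℝ => VV G p.1 p.2.1 p.2.2 := by
  unfold VV
  refine intervalIntegral.continuous_parametric_intervalIntegral_of_continuous' ?_ 0 1
  have h1 : Continuous fun q : (ℝ × V4 × ℝ) × ℝ =>
      ((q.1.2.1, cl q.1.2.2 + q.2 * (cl q.1.1 * (1 - cl q.1.2.2))) : V5) := by
    have c1 : Continuous fun q : (ℝ × V4 × ℝ) × ℝ => cl q.1.2.2 :=
      continuous_cl.comp continuous_fst.snd.snd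
    have c2 : Continuous fun q : (ℝ × V4 × ℝ) × ℝ => cl q.1.1 :=
      continuous_cl.comp continuous_fst.fst
    exact continuous_fst.snd.fst.prodMk
      (c1.add (continuous_snd.mul (c2.mul (continuous_const.sub c1))))
  exact ((DisA_cont h).comp h1).clm_apply continuous_const

/-- the derivative of `G` is periodic by `equiv` -/
theorem fderiv_per (h : PsIso M b g G) (x : V4) (t : ℝ) (v : Fin 4 → ℤ) :
    fderiv ℝ G (x + iv v, t) = fderiv ℝ G (x, t) := by
  have h1 : (fun p : V5 => G (p + (iv v, 0))) = fun p : V5 => G p + (iv (M.mulVec v), 0) := by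
    funext p
    have h2 := h.equiv p.1 p.2 v
    have h3 : p + (iv v, 0) = (p.1 + iv v, p.2) := by
      refine Prod.ext rfl ?_
      rw [Prod.snd_add, add_zero]
    rw [h3, h2]
  have h4 : fderiv ℝ (fun p : V5 => G (p + (iv v, 0))) ((x, t) : V5) =
      fderiv ℝ (fun p : V5 => G p + (iv (M.mulVec v), 0)) ((x, t) : V5) := by rw [h1]
  rw [fderiv_comp_add_right, fderiv_add_const] at h4
  have h5 : ((x, t) : V5) + (iv v, 0) = (x + iv v, t) := by
    rw [Prod.mk_add_mk, add_zero]
  rw [h5] at h4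
  exact h4

theorem VV_per (h : PsIso M b g G) (τ : ℝ) (x : V4) (t : ℝ) (v : Fin 4 → ℤ) :
    VV G τ (x + iv v) t = VV G τ x t := by
  unfold VV
  simp only [fderiv_per h]

theorem VV_cl (τ : ℝ) (x : V4) (t : ℝ) : VV G τ x t = VV G τ x (cl t) := by
  unfold VV
  rw [cl_cl]

theorem VV_zero (x : V4) (t : ℝ) : VV G 0 x t = fderiv ℝ G (x, cl t) (0, 1) := by
  unfold VV
  rw [cl_zero]
  simp

theorem FF_continuous (h : PsIso M b g G) : Continuous fun p : V4 × ℝ => FF G p.1 p.2 := by
  refine continuous_pi fun j => ?_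
  have h1 : Continuous fun p : V4 × ℝ => ((p.1, cl p.2) : V5) :=
    continuous_fst.prodMk (continuous_cl.comp continuous_snd)
  exact ((DisA_cont h).comp h1).clm_apply continuous_const

theorem FF_per (h : PsIso M b g G) (x : V4) (t : ℝ) (v : Fin 4 → ℤ) :
    FF G (x + iv v) t = FF G x t := by
  unfold FF
  rw [fderiv_per h]

/-- `∑ c j • F j + s • V` is the derivative at `(c, s)` -/
theorem FF_ind (h : PsIso M b g G) (x : V4) (t : ℝ) : Ind (FF G x t) (VV G 0 x t) := by
  intro c s h0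
  rw [VV_zero] at h0
  unfold FF at h0
  have h1 : ((c, s) : V5) = ∑ j, c j • ((Pi.single j 1, 0) : V5) + s • ((0, 1) : V5) := by
    refine Prod.ext ?_ ?_
    · funext i
      rw [Prod.fst_add, Prod.fst_sum, Pi.add_apply, Finset.sum_apply]
      simp [Pi.single_apply]
    · rw [Prod.snd_add, Prod.snd_sum]
      simp
  have h2 : fderiv ℝ G (x, cl t) ((c, s) : V5) = 0 := by
    rw [h1, map_add, map_sum, map_smul]
    simp only [map_smul]
    exact h0
  have h3 : ((c, s) : V5) = 0 := (h.bij x (cl t) (cl_mem t)).1 (by rw [h2, map_zero])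
  exact congrArg Prod.fst h3

private theorem DisA_end (h : PsIso M b g G) {s k : ℝ} {f : V4 → V4}
    (hs : ∀ y : V4, G (y, s) = (f y, k)) (x : V4) (j : Fin 4) :
    DifferentiableAt ℝ f x ∧
      fderiv ℝ G (x, s) (Pi.single j 1, 0) = (fderiv ℝ f x (Pi.single j 1), 0) := by
  have h1 : HasFDerivAt (fun y : V4 => ((y, s) : V5))
      ((ContinuousLinearMap.id ℝ V4).prod (0 : V4 →L[ℝ] ℝ)) x :=
    (hasFDerivAt_id x).prodMk (hasFDerivAt_const s x)
  have h2 := (DisA_diff h (x, s)).comp x h1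
  have h3 : (G ∘ fun y : V4 => ((y, s) : V5)) = fun y => (f y, k) := funext fun y => hs y
  rw [h3] at h2
  have h4 : HasFDerivAt f ((ContinuousLinearMap.fst ℝ V4 ℝ).comp
      ((fderiv ℝ G (x, s)).comp ((ContinuousLinearMap.id ℝ V4).prod (0 : V4 →L[ℝ] ℝ)))) x := h2.fst
  have h5 : HasFDerivAt (fun _ : V4 => k) ((ContinuousLinearMap.snd ℝ V4 ℝ).comp
      ((fderiv ℝ G (x, s)).comp ((ContinuousLinearMap.id ℝ V4).prod (0 : V4 →L[ℝ] ℝ)))) x := h2.snd
  refine ⟨h4.differentiableAt, Prod.ext ?_ ?_⟩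
  · rw [h4.fderiv]
    rfl
  · have h6 := h5.unique (hasFDerivAt_const k x)
    have h7 := congrArg (fun L : V4 →L[ℝ] ℝ => L (Pi.single j 1)) h6
    exact h7

/-- the horizontal derivatives of `G` at `(x, 0)` are `(M e_j, 0)` by `bottom` -/
theorem qq_bottom (h : PsIso M b g G) (x : V4) :
    qq (FF G x 0) (VV G 0 x 0) = M.map (fun m : ℤ => (m : ℝ)) := by
  ext i j
  have h1 := (DisA_end h (fun y => h.bottom y) x j).2
  unfold qq FF
  rw [Matrix.of_apply, cl_zero, h1]
  have h2 : HasFDerivAt (fun y : V4 => (M.map (fun m : ℤ => (m : ℝ))).mulVec y + b)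
      (LinearMap.toContinuousLinearMap (Matrix.mulVecLin (M.map (fun m : ℤ => (m : ℝ))))) x :=
    (LinearMap.toContinuousLinearMap
      (Matrix.mulVecLin (M.map (fun m : ℤ => (m : ℝ))))).hasFDerivAt.add_const b
  rw [h2.fderiv]
  simp

/-- the horizontal derivatives of `G` at `(x, 1)` are `(Dg e_j, 0)` by `top` -/
theorem qq_top (h : PsIso M b g G) (x : V4) : qq (FF G x 1) (VV G 0 x 1) = jac g x := by
  ext i j
  have h1 := (DisA_end h (fun y => h.top y) x j).2
  unfold qq FF jac
  rw [Matrix.of_apply, cl_one, h1]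
  simp

end Pool.Agent.H.MP_df7994_gt.PI
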