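import Pool.Agent.H.MP_df7994_gt.PI.Defs

/-!
# Module DisB: displacements, signs
-/

set_option autoImplicit false

namespace Pool.Agent.H.MP_df7994_gt.PI

open Set Topology

variable {M : Matrix (Fin 4) (Fin 4) ℤ} {b : V4} {g : V4 → V4} {G : V5 → V5}

private theorem DisB_diff (h : PsIso M b g G) (p : V5) : HasFDerivAt G (fderiv ℝ G p) p :=
  (h.smooth.differentiable (by simp)).differentiableAt.hasFDerivAt

private theorem DisB_line (h : PsIso M b g G) (x : V4) (s a θ : ℝ) :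
    HasDerivAt (fun θ : ℝ => G (x, s + θ * a)) (a • fderiv ℝ G (x, s + θ * a) (0, 1)) θ := by
  have h1 : HasDerivAt (fun θ : ℝ => ((x, s + θ * a) : V5)) ((0 : V4), a) θ := by
    have h2 : HasDerivAt (fun θ : ℝ => s + θ * a) a θ := by
      have := ((hasDerivAt_id θ).mul_const a).const_add s
      simpa using this
    exact (hasDerivAt_const θ x).prodMk h2
  have h3 := (DisB_diff h (x, s + θ * a)).comp_hasDerivAt θ h1
  have h4 : ((0 : V4), a) = a • ((0 : V4), (1 : ℝ)) := by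
    rw [Prod.smul_mk, smul_zero, smul_eq_mul, mul_one]
  rw [h4, map_smul] at h3
  exact h3

private theorem DisB_a0 (τ t : ℝ) : 0 ≤ cl τ * (1 - cl t) :=
  mul_nonneg (cl_mem τ).1 (sub_nonneg.2 (cl_mem t).2)

private theorem DisB_a1 (τ t : ℝ) : cl t + cl τ * (1 - cl t) ≤ 1 := by
  have h1 := cl_mem τ
  have h2 := cl_mem t
  nlinarith [h1.1, h1.2, h2.1, h2.2]

/-- the fundamental theorem of calculus -/
theorem VV_smul (h : PsIso M b g G) (τ : ℝ) (x : V4) (t : ℝ) :
    (cl τ * (1 - cl t)) • VV G τ x t = G (x, cl t + cl τ * (1 - cl t)) - G (x, cl t) := by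
  have hc : Continuous fun θ : ℝ => (cl τ * (1 - cl t)) •
      fderiv ℝ G (x, cl t + θ * (cl τ * (1 - cl t))) ((0 : V4), (1 : ℝ)) := by
    have h1 : Continuous (fderiv ℝ G) := h.smooth.continuous_fderiv (by simp)
    have h2 : Continuous fun θ : ℝ => ((x, cl t + θ * (cl τ * (1 - cl t))) : V5) := by
      fun_prop
    have h4 : Continuous fun θ : ℝ =>
        fderiv ℝ G (x, cl t + θ * (cl τ * (1 - cl t))) ((0 : V4), (1 : ℝ)) :=
      (h1.comp h2).clm_apply continuous_const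
    exact h4.const_smul (cl τ * (1 - cl t))
  have h3 := intervalIntegral.integral_eq_sub_of_hasDerivAt
    (fun θ _ => DisB_line h x (cl t) (cl τ * (1 - cl t)) θ) (hc.intervalIntegrable 0 1)
  rw [intervalIntegral.integral_smul, one_mul, zero_mul, add_zero] at h3
  exact h3

/-- if `cl τ * (1 - cl t) = 0` then `VV G τ x t` is the vertical derivative at `(x, cl t)` -/
theorem VV_const (τ : ℝ) (x : V4) (t : ℝ) (h0 : cl τ * (1 - cl t) = 0) :
    VV G τ x t = fderiv ℝ G (x, cl t) (0, 1) := by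
  unfold VV
  rw [h0]
  simp

theorem VV_ne (h : PsIso M b g G) (τ : ℝ) (x : V4) (t : ℝ) : VV G τ x t ≠ 0 := by
  intro h0
  rcases (DisB_a0 τ t).eq_or_lt with ha | ha
  · rw [VV_const τ x t ha.symm] at h0
    have h1 : ((0 : V4), (1 : ℝ)) = 0 := (h.bij x (cl t) (cl_mem t)).1 (by rw [h0, map_zero])
    exact one_ne_zero (congrArg Prod.snd h1)
  · have h1 := VV_smul h τ x t
    rw [h0, smul_zero] at h1
    have h2 := (h.inj x x _ _ ⟨add_nonneg (cl_mem t).1 ha.le, DisB_a1 τ t⟩ (cl_mem t)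
      (sub_eq_zero.1 h1.symm)).2
    linarith

private theorem DisB_hor (h : PsIso M b g G) {s k : ℝ} (hs : ∀ y : V4, (G (y, s)).2 = k) (x u : V4) :
    (fderiv ℝ G (x, s) (u, 0)).2 = 0 := by
  have h1 : HasDerivAt (fun r : ℝ => ((x + r • u, s) : V5)) ((u, (0 : ℝ)) : V5) 0 := by
    have h2 : HasDerivAt (fun r : ℝ => x + r • u) u 0 := by
      have := ((hasDerivAt_id (0 : ℝ)).smul_const u).const_add x
      simpa using this
    exact h2.prodMk (hasDerivAt_const _ _)
  have h3 := DisB_diff h ((x + (0 : ℝ) • u, s) : V5)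
  have h4 := h3.comp_hasDerivAt (0 : ℝ) h1
  have h5 : HasDerivAt (fun r : ℝ => (G (x + r • u, s)).2)
      (fderiv ℝ G ((x + (0 : ℝ) • u, s) : V5) (u, 0)).2 0 := h4.snd
  have h6 : HasDerivAt (fun r : ℝ => (G (x + r • u, s)).2) 0 0 := by
    have h7 : (fun r : ℝ => (G (x + r • u, s)).2) = fun _ => k := funext fun r => hs _
    rw [h7]
    exact hasDerivAt_const _ _
  have h8 := h5.unique h6
  rwa [zero_smul, add_zero] at h8

private theorem DisB_ne (h : PsIso M b g G) {s k : ℝ} (hs : ∀ y : V4, (G (y, s)).2 = k)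
    (hs1 : s ∈ Icc (0 : ℝ) 1) (x : V4) : (fderiv ℝ G (x, s) (0, 1)).2 ≠ 0 := by
  intro h0
  obtain ⟨⟨u, r⟩, hp⟩ := (h.bij x s hs1).2 ((0 : V4), (1 : ℝ))
  have h1 : ((u, r) : V5) = (u, 0) + r • ((0 : V4), (1 : ℝ)) := by
    rw [Prod.smul_mk, smul_zero, smul_eq_mul, mul_one, Prod.mk_add_mk, add_zero, zero_add]
  rw [h1, map_add, map_smul] at hp
  have h2 := congrArg Prod.snd hp
  rw [Prod.snd_add, Prod.smul_snd, DisB_hor h hs x u, h0, smul_zero, add_zero] at h2
  exact zero_ne_one h2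

private theorem DisB_snd (h : PsIso M b g G) (x : V4) (s : ℝ) :
    HasDerivAt (fun t : ℝ => (G (x, t)).2) (fderiv ℝ G (x, s) (0, 1)).2 s := by
  have h1 : HasDerivAt (fun θ : ℝ => (G (x, 0 + θ * 1)).2)
      ((1 : ℝ) • fderiv ℝ G (x, 0 + s * 1) (0, 1)).2 s := (DisB_line h x 0 1 s).snd
  simp only [zero_add, mul_one, one_smul] at h1
  exact h1

/-- the second coordinate of `G (x, t)` is `≤ 1` for `t ≤ 1`, with equality at `1`, so its derivative at
`(x, 1)` in the direction `(0, 1)` is `≥ 0`; it is not `0`, otherwise all derivatives of the second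
coordinate at `(x, 1)` vanish (by `top`) and the derivative is not surjective -/
theorem top_pos (h : PsIso M b g G) (x : V4) : 0 < (fderiv ℝ G (x, 1) (0, 1)).2 := by
  have hk : ∀ y : V4, (G (y, 1)).2 = 1 := fun y => by rw [h.top y]
  refine lt_of_le_of_ne ?_ (DisB_ne h hk ⟨zero_le_one, le_rfl⟩ x).symm
  have h1 := (hasDerivAt_iff_tendsto_slope.1 (DisB_snd h x 1))
  have h2 : Filter.Tendsto (slope (fun t : ℝ => (G (x, t)).2) 1) (𝓝[<] 1)
      (𝓝 (fderiv ℝ G (x, 1) (0, 1)).2) :=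
    h1.mono_left (nhdsWithin_mono _ fun t ht => ne_of_lt ht)
  refine ge_of_tendsto h2 ?_
  have h3 : Ioo (0 : ℝ) 1 ∈ 𝓝[<] (1 : ℝ) := Ioo_mem_nhdsLT zero_lt_one
  filter_upwards [h3] with t ht
  rw [slope_def_field, hk x]
  exact div_nonneg_of_nonpos (by linarith [(h.inside x t ht).2]) (by linarith [ht.2])

theorem bot_pos (h : PsIso M b g G) (x : V4) : 0 < (fderiv ℝ G (x, 0) (0, 1)).2 := by
  have hk : ∀ y : V4, (G (y, 0)).2 = 0 := fun y => by rw [h.bottom y]
  refine lt_of_le_of_ne ?_ (DisB_ne h hk ⟨le_rfl, zero_le_one⟩ x).symm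
  have h1 := (hasDerivAt_iff_tendsto_slope.1 (DisB_snd h x 0))
  have h2 : Filter.Tendsto (slope (fun t : ℝ => (G (x, t)).2) 0) (𝓝[>] 0)
      (𝓝 (fderiv ℝ G (x, 0) (0, 1)).2) :=
    h1.mono_left (nhdsWithin_mono _ fun t ht => ne_of_gt ht)
  refine ge_of_tendsto h2 ?_
  have h3 : Ioo (0 : ℝ) 1 ∈ 𝓝[>] (0 : ℝ) := Ioo_mem_nhdsGT zero_lt_one
  filter_upwards [h3] with t ht
  rw [slope_def_field, hk x]
  exact div_nonneg (by linarith [(h.inside x t ht).1]) (by linarith [ht.1])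

private theorem DisB_low (h : PsIso M b g G) (x : V4) {t : ℝ} (h0 : 0 < t) (h1 : t ≤ 1) :
    0 < (G (x, t)).2 := by
  rcases h1.eq_or_lt with h1 | h1
  · rw [h1, h.top x]
    exact one_pos
  · exact (h.inside x t ⟨h0, h1⟩).1

private theorem DisB_high (h : PsIso M b g G) (x : V4) {t : ℝ} (h0 : 0 ≤ t) (h1 : t < 1) :
    (G (x, t)).2 < 1 := by
  rcases h0.eq_or_lt with h0 | h0
  · rw [← h0, h.bottom x]
    exact one_pos
  · exact (h.inside x t ⟨h0, h1⟩).2

theorem VV_end0 (h : PsIso M b g G) (τ : ℝ) (x : V4) : 0 < (VV G τ x 0).2 := by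
  rcases (DisB_a0 τ 0).eq_or_lt with ha | ha
  · rw [VV_const τ x 0 ha.symm, cl_zero]
    exact bot_pos h x
  · have h1 := congrArg Prod.snd (VV_smul h τ x 0)
    rw [Prod.smul_snd, Prod.snd_sub, smul_eq_mul] at h1
    have h2 := DisB_a1 τ 0
    rw [cl_zero, zero_add] at h1 h2
    rw [cl_zero] at ha
    have h3 := DisB_low h x ha h2
    rw [h.bottom x] at h1
    have h4 : 0 < cl τ * (1 - 0) * (VV G τ x 0).2 := by
      rw [h1]
      simpa using h3
    exact (mul_pos_iff_of_pos_left ha).1 h4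

theorem VV_end1 (h : PsIso M b g G) (τ : ℝ) (x : V4) : 0 < (VV G τ x 1).2 := by
  rw [VV_const τ x 1 (by rw [cl_one, sub_self, mul_zero]), cl_one]
  exact top_pos h x

theorem VV_one (h : PsIso M b g G) (x : V4) (t : ℝ) : 0 < (VV G 1 x t).2 := by
  rcases (DisB_a0 1 t).eq_or_lt with ha | ha
  · rw [VV_const 1 x t ha.symm]
    have h1 : cl t = 1 := by
      rw [cl_one, one_mul] at ha
      linarith
    rw [h1]
    exact top_pos h x
  · have h1 := congrArg Prod.snd (VV_smul h 1 x t)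
    rw [Prod.smul_snd, Prod.snd_sub, smul_eq_mul] at h1
    rw [cl_one, one_mul] at h1 ha
    have h2 : cl t + (1 - cl t) = 1 := by ring
    rw [h2, h.top x] at h1
    have h3 := DisB_high h x (cl_mem t).1 (by linarith : cl t < 1)
    have h4 : 0 < (1 - cl t) * (VV G 1 x t).2 := by
      rw [h1]
      simpa using h3
    exact (mul_pos_iff_of_pos_left ha).1 h4

end Pool.Agent.H.MP_df7994_gt.PI
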