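import Pool.Agent.H.MP_df7994_gt.PI.Fin
import Pool.Agent.H.MP_df7994_gt.SD.Join

/-!
# Module End: pullbacks of forms homotopic to constant forms
-/

set_option autoImplicit false

namespace Pool.Agent.H.MP_df7994_gt.PI

open Set Topology

variable {M : Matrix (Fin 4) (Fin 4) ℤ} {b : V4} {g : V4 → V4} {G : V5 → V5}

theorem det_M (h : PsIso M b g G) : (M.map (fun m : ℤ => (m : ℝ))).det ≠ 0 := by
  obtain ⟨K, -, k0, -, -, kd⟩ := jac_hom h
  have h2 := kd 0 ⟨le_rfl, zero_le_one⟩ 0
  rwa [k0] at h2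

theorem hom_sign {α β : V4 → M4} (h : Hom α β) {s : ℝ} (x : V4) (h0 : 0 < s * pf (α x)) :
    0 < s * pf (β x) := by
  obtain ⟨H, hc, e0, e1, hs, -, hd⟩ := h
  have h1 := SD.sign_path hc hs hd (s := s) x (by rw [e0]; exact h0)
  rwa [e1] at h1

theorem skew_conj {a : M4} (h : ∀ i j, a i j = - a j i) (K : M4) (i j : Fin 4) :
    (K.transpose * a * K) i j = - (K.transpose * a * K) j i := by
  have h1 : a.transpose = - a := by
    ext i j
    rw [Matrix.transpose_apply, Matrix.neg_apply]
    exact h j i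
  have h2 : (K.transpose * a * K).transpose = - (K.transpose * a * K) := by
    rw [Matrix.transpose_mul, Matrix.transpose_mul, Matrix.transpose_transpose, h1,
      Matrix.neg_mul, Matrix.mul_neg, Matrix.mul_assoc]
  have h3 := congrFun (congrFun h2 j) i
  rw [Matrix.transpose_apply, Matrix.neg_apply] at h3
  exact h3

theorem hom_affine (M : Matrix (Fin 4) (Fin 4) ℤ) (b : V4)
    (hM : (M.map (fun m : ℤ => (m : ℝ))).det ≠ 0) {β : V4 → M4} {c : M4}
    (hc : Hom β (fun _ => c)) :
    Hom (fun x => (M.map (fun m : ℤ => (m : ℝ))).transpose *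
        β ((M.map (fun m : ℤ => (m : ℝ))).mulVec x + b) * M.map (fun m : ℤ => (m : ℝ)))
      (fun _ => (M.map (fun m : ℤ => (m : ℝ))).transpose * c * M.map (fun m : ℤ => (m : ℝ))) := by
  obtain ⟨K, kc, k0, k1, ks, kp, kd⟩ := hc
  have hiv : ∀ v : Fin 4 → ℤ,
      (M.map (fun m : ℤ => (m : ℝ))).mulVec (iv v) = iv (M.mulVec v) := by
    intro v
    funext i
    simp [Matrix.mulVec, dotProduct, iv]
  have cM : Continuous fun p : ℝ × V4 => (M.map (fun m : ℤ => (m : ℝ))).mulVec p.2 + b :=
    (continuous_const.matrix_mulVec continuous_snd).add continuous_const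
  refine ⟨fun t x => (M.map (fun m : ℤ => (m : ℝ))).transpose *
    K t ((M.map (fun m : ℤ => (m : ℝ))).mulVec x + b) * M.map (fun m : ℤ => (m : ℝ)),
    ?_, ?_, ?_, ?_, ?_, ?_⟩
  · exact (continuous_const.matrix_mul (kc.comp (continuous_fst.prodMk cM))).matrix_mul
      continuous_const
  · funext x
    dsimp only
    rw [k0]
  · funext x
    dsimp only
    rw [k1]
  · intro t ht x i j
    exact skew_conj (ks t ht _) _ i j
  · intro t ht x v
    dsimp only
    have e : (M.map (fun m : ℤ => (m : ℝ))).mulVec (x + iv v) + b =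
        (M.map (fun m : ℤ => (m : ℝ))).mulVec x + b + iv (M.mulVec v) := by
      rw [Matrix.mulVec_add, hiv]
      abel
    rw [e, kp t ht]
  · intro t ht x
    rw [Matrix.det_mul, Matrix.det_mul, Matrix.det_transpose]
    exact mul_ne_zero (mul_ne_zero hM (kd t ht _)) hM

/-- pullbacks by `g` of forms homotopic to a constant form are homotopic to the reference form of
the same sign -/
theorem pull_ref (h : PsIso M b g G) {β : V4 → M4} (hc : Continuous β)
    (hs : ∀ x i j, β x i j = - β x j i)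
    (hp : ∀ x (v : Fin 4 → ℤ), β (x + iv v) = β x) (hd : ∀ x, (β x).det ≠ 0) {c : M4}
    (hβ : Hom β (fun _ => c)) {s : ℝ} (hs1 : s = 1 ∨ s = -1)
    (hpf : ∀ x, 0 < s * pf ((jac g x).transpose * β (g x) * jac g x)) :
    Hom (fun x => (jac g x).transpose * β (g x) * jac g x) (ref s) := by
  have h1 := (pull_hom h hc hs hp hd).trans (hom_affine M b (det_M h) hβ)
  have h2 := hom_sign h1 0 (hpf 0)
  have h3 : ∀ i j, c i j = - c j i := by
    obtain ⟨K, -, -, k1, ks, -, -⟩ := hβ
    intro i j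
    have := ks 1 ⟨zero_le_one, le_rfl⟩ 0 i j
    rwa [k1] at this
  exact h1.trans (SD.const_ref (skew_conj h3 _) hs1 h2)

end Pool.Agent.H.MP_df7994_gt.PI
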