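import Pool.Agent.H.MP_df7994_gt.PI.Chn
import Pool.Agent.H.MP_df7994_gt.PI.DisA
import Pool.Agent.H.MP_df7994_gt.PI.DisB

/-!
# Module Fin: the homotopies
-/

set_option autoImplicit false

namespace Pool.Agent.H.MP_df7994_gt.PI

open Set Topology

variable {M : Matrix (Fin 4) (Fin 4) ℤ} {b : V4} {g : V4 → V4} {G : V5 → V5}

/-- the derivative of `g` is homotopic to the constant `M` -/
theorem jac_hom (h : PsIso M b g G) : GH (fun _ => M.map (fun m : ℤ => (m : ℝ))) (jac g) := by
  have h1 := chain (V := VV G) (F := FF G) (VV_continuous h) (VV_per h) VV_cl (VV_ne h)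
    (FF_continuous h) (FF_per h) (FF_ind h) (VV_end0 h) (VV_end1 h) (VV_one h)
  have e0 : (fun x => qq (FF G x 0) (VV G 0 x 0)) = fun _ => M.map (fun m : ℤ => (m : ℝ)) :=
    funext (qq_bottom h)
  have e1 : (fun x => qq (FF G x 1) (VV G 0 x 1)) = jac g := funext (qq_top h)
  rwa [e0, e1] at h1

private theorem Fin_per (h : PsIso M b g G) (x : V4) (v : Fin 4 → ℤ) :
    g (x + iv v) = g x + iv (M.mulVec v) := by
  have h1 := h.equiv x 1 v
  rw [h.top, h.top] at h1
  exact congrArg Prod.fst h1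

private theorem Fin_cont (h : PsIso M b g G) : Continuous g := by
  have h1 : g = fun x : V4 => (G (x, 1)).1 := by
    funext x
    rw [h.top x]
  rw [h1]
  exact (h.smooth.continuous.comp (continuous_id.prodMk continuous_const)).fst

private theorem Fin_iv (M : Matrix (Fin 4) (Fin 4) ℤ) (v : Fin 4 → ℤ) :
    (M.map (fun m : ℤ => (m : ℝ))).mulVec (iv v) = iv (M.mulVec v) := by
  funext i
  simp [Matrix.mulVec, dotProduct, iv]

/-- pullbacks by `g` are homotopic to pullbacks by the affine map -/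
theorem pull_hom (h : PsIso M b g G) {α : V4 → M4} (hc : Continuous α)
    (hs : ∀ x i j, α x i j = - α x j i)
    (hp : ∀ x (v : Fin 4 → ℤ), α (x + iv v) = α x) (hd : ∀ x, (α x).det ≠ 0) :
    Hom (fun x => (jac g x).transpose * α (g x) * jac g x)
      (fun x => (M.map (fun m : ℤ => (m : ℝ))).transpose *
        α ((M.map (fun m : ℤ => (m : ℝ))).mulVec x + b) * M.map (fun m : ℤ => (m : ℝ))) := by
  have h1 := jac_hom h
  have hP : (M.map (fun m : ℤ => (m : ℝ))).det ≠ 0 := by
    obtain ⟨K, -, k0, -, -, kd⟩ := h1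
    have h2 := kd 0 ⟨le_rfl, zero_le_one⟩ 0
    rwa [k0] at h2
  have h2 := hom_of_GH h1.symm (Fin_cont h) (Fin_per h) hc hs hp hd
  refine h2.trans (hom_line (M := M) (Fin_cont h) ?_ (Fin_per h) (fun x v => ?_) hP hc hs hp hd)
  · exact (continuous_const.matrix_mulVec continuous_id).add continuous_const
  · rw [Matrix.mulVec_add, Fin_iv]
    abel

end Pool.Agent.H.MP_df7994_gt.PI
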