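import Pool.Agent.H.MP_df7994_gt.PI.Defs

/-!
# Module Gh: homotopies of maps to the invertible matrices
-/

set_option autoImplicit false

namespace Pool.Agent.H.MP_df7994_gt.PI

open Set Topology

theorem GH.refl {A : V4 → M4} (hc : Continuous A) (hp : ∀ x (v : Fin 4 → ℤ), A (x + iv v) = A x)
    (hd : ∀ x, (A x).det ≠ 0) : GH A A :=
  ⟨fun _ => A, hc.comp continuous_snd, rfl, rfl, fun _ _ => hp, fun _ _ => hd⟩

theorem GH.symm {A B : V4 → M4} (h : GH A B) : GH B A := by
  obtain ⟨H, hc, h0, h1, hp, hd⟩ := h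
  have hI : ∀ t ∈ Icc (0 : ℝ) 1, 1 - t ∈ Icc (0 : ℝ) 1 := fun t ht =>
    ⟨by linarith [ht.2], by linarith [ht.1]⟩
  refine ⟨fun t => H (1 - t), ?_, by simpa using h1, by simpa using h0,
    fun t ht => hp _ (hI t ht), fun t ht => hd _ (hI t ht)⟩
  exact hc.comp ((continuous_const.sub continuous_fst).prodMk continuous_snd)

/-- as for `Hom.trans` in Basic.lean -/
theorem GH.trans {A B C : V4 → M4} (h : GH A B) (h' : GH B C) : GH A C := by
  obtain ⟨H, hc, h0, h1, hp, hd⟩ := h
  obtain ⟨G, gc, g0, g1, gp, gd⟩ := h'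
  refine ⟨fun t => if t ≤ 1 / 2 then H (2 * t) else G (2 * t - 1), ?_, ?_, ?_, ?_, ?_⟩
  · have e : (fun p : ℝ × V4 => (if p.1 ≤ 1 / 2 then H (2 * p.1) else G (2 * p.1 - 1)) p.2) =
        fun p : ℝ × V4 => if p.1 ≤ 1 / 2 then H (2 * p.1) p.2 else G (2 * p.1 - 1) p.2 := by
      funext p
      split_ifs <;> rfl
    rw [e]
    refine Continuous.if_le ?_ ?_ continuous_fst continuous_const ?_
    · exact hc.comp ((continuous_const.mul continuous_fst).prodMk continuous_snd)
    · exact gc.comp (((continuous_const.mul continuous_fst).sub continuous_const).prodMk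
        continuous_snd)
    · intro p hp1
      have e1 : 2 * p.1 = 1 := by rw [hp1]; norm_num
      rw [e1, h1, sub_self, g0]
  · simp [h0]
  · have : ¬ ((1 : ℝ) ≤ 1 / 2) := by norm_num
    simp only [this, if_false]
    norm_num
    exact g1
  · intro t ht x v
    by_cases h : t ≤ 1 / 2
    · simp only [h, if_true]
      exact hp _ ⟨by linarith [ht.1], by linarith⟩ x v
    · simp only [h, if_false]
      exact gp _ ⟨by linarith [not_le.1 h], by linarith [ht.2]⟩ x v
  · intro t ht x
    by_cases h : t ≤ 1 / 2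
    · simp only [h, if_true]
      exact hd _ ⟨by linarith [ht.1], by linarith⟩ x
    · simp only [h, if_false]
      exact gd _ ⟨by linarith [not_le.1 h], by linarith [ht.2]⟩ x

private theorem Gh_skew {a : M4} (h : ∀ i j, a i j = - a j i) (K : M4) (i j : Fin 4) :
    (K.transpose * a * K) i j = - (K.transpose * a * K) j i := by
  have h1 : a.transpose = - a := by
    ext i j
    rw [Matrix.transpose_apply, Matrix.neg_apply]
    exact h j i
  have h2 : (K.transpose * a * K).transpose = - (K.transpose * a * K) := by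
    rw [Matrix.transpose_mul, Matrix.transpose_mul, Matrix.transpose_transpose, h1,
      Matrix.neg_mul, Matrix.mul_neg, Matrix.mul_assoc]
  have h3 := congrFun (congrFun h2 j) i
  rw [Matrix.transpose_apply, Matrix.neg_apply] at h3
  exact h3

private theorem Gh_det {a K : M4} (ha : a.det ≠ 0) (hK : K.det ≠ 0) :
    (K.transpose * a * K).det ≠ 0 := by
  rw [Matrix.det_mul, Matrix.det_mul, Matrix.det_transpose]
  exact mul_ne_zero (mul_ne_zero hK ha) hK

/-- `H t x = (K t x)ᵀ * α (g x) * K t x` for the homotopy `K` from `A` to `B` -/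
theorem hom_of_GH {A B : V4 → M4} (h : GH A B) {g : V4 → V4} (hg : Continuous g)
    {M : Matrix (Fin 4) (Fin 4) ℤ} (hgp : ∀ x (v : Fin 4 → ℤ), g (x + iv v) = g x + iv (M.mulVec v))
    {α : V4 → M4} (hc : Continuous α) (hs : ∀ x i j, α x i j = - α x j i)
    (hp : ∀ x (v : Fin 4 → ℤ), α (x + iv v) = α x) (hd : ∀ x, (α x).det ≠ 0) :
    Hom (fun x => (A x).transpose * α (g x) * A x) (fun x => (B x).transpose * α (g x) * B x) := by
  obtain ⟨K, kc, k0, k1, kp, kd⟩ := h
  refine ⟨fun t x => (K t x).transpose * α (g x) * K t x, ?_, ?_, ?_, ?_, ?_, ?_⟩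
  · exact (kc.matrix_transpose.matrix_mul (hc.comp (hg.comp continuous_snd))).matrix_mul kc
  · funext x
    dsimp only
    rw [k0]
  · funext x
    dsimp only
    rw [k1]
  · intro t _ x i j
    exact Gh_skew (hs (g x)) _ i j
  · intro t ht x v
    dsimp only
    rw [kp t ht, hgp, hp]
  · intro t ht x
    exact Gh_det (hd _) (kd t ht x)

/-- `H t x = Pᵀ * α (g x + t • (g' x - g x)) * P` -/
theorem hom_line {g g' : V4 → V4} (hg : Continuous g) (hg' : Continuous g')
    {M : Matrix (Fin 4) (Fin 4) ℤ} (hgp : ∀ x (v : Fin 4 → ℤ), g (x + iv v) = g x + iv (M.mulVec v))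
    (hgp' : ∀ x (v : Fin 4 → ℤ), g' (x + iv v) = g' x + iv (M.mulVec v))
    {P : M4} (hP : P.det ≠ 0) {α : V4 → M4} (hc : Continuous α) (hs : ∀ x i j, α x i j = - α x j i)
    (hp : ∀ x (v : Fin 4 → ℤ), α (x + iv v) = α x) (hd : ∀ x, (α x).det ≠ 0) :
    Hom (fun x => P.transpose * α (g x) * P) (fun x => P.transpose * α (g' x) * P) := by
  have c1 : Continuous fun p : ℝ × V4 => g p.2 + p.1 • (g' p.2 - g p.2) :=
    (hg.comp continuous_snd).add
      (continuous_fst.smul ((hg'.comp continuous_snd).sub (hg.comp continuous_snd)))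
  refine ⟨fun t x => P.transpose * α (g x + t • (g' x - g x)) * P, ?_, ?_, ?_, ?_, ?_, ?_⟩
  · exact (continuous_const.matrix_mul (hc.comp c1)).matrix_mul continuous_const
  · funext x
    dsimp only
    rw [zero_smul, add_zero]
  · funext x
    dsimp only
    rw [one_smul, add_sub_cancel]
  · intro t _ x i j
    exact Gh_skew (hs _) _ i j
  · intro t _ x v
    dsimp only
    have e : g (x + iv v) + t • (g' (x + iv v) - g (x + iv v)) =
        g x + t • (g' x - g x) + iv (M.mulVec v) := by
      rw [hgp, hgp', add_sub_add_right_eq_sub]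
      abel
    rw [e, hp]
  · intro t _ x
    exact Gh_det (hd _) hP

end Pool.Agent.H.MP_df7994_gt.PI
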