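import Pool.Agent.H.MP_df7994_gt.PI.Alg
import Pool.Agent.H.MP_df7994_gt.PI.Gh

/-!
# Module Stp: one step
-/

set_option autoImplicit false

namespace Pool.Agent.H.MP_df7994_gt.PI

open Set Topology

private theorem Stp_dt (V W : V5) (r : ℝ) :
    dt V (V + r • (W - V)) = (1 - r) * dt V V + r * dt V W := by
  unfold dt
  simp only [Fin.sum_univ_four, Prod.fst_add, Prod.snd_add, Prod.smul_fst, Prod.smul_snd,
    Prod.fst_sub, Prod.snd_sub, Pi.add_apply, Pi.smul_apply, Pi.sub_apply, smul_eq_mul]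
  ring

/-- `H r x = qq (tr (V x) (V x + cl r • (W x - V x)) (F x)) (V x + cl r • (W x - V x))`; the inner
product of `V x` with `V x + cl r • (W x - V x)` is positive, its last coordinate too. -/
theorem step {V W : V4 → V5} {F : V4 → Fin 4 → V5} (hV : Continuous V) (hW : Continuous W)
    (hF : Continuous F) (pV : ∀ x (v : Fin 4 → ℤ), V (x + iv v) = V x)
    (pW : ∀ x (v : Fin 4 → ℤ), W (x + iv v) = W x) (pF : ∀ x (v : Fin 4 → ℤ), F (x + iv v) = F x)
    (ind : ∀ x, Ind (F x) (V x)) (pos : ∀ x, 0 < dt (V x) (W x)) (hV2 : ∀ x, 0 < (V x).2)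
    (hW2 : ∀ x, 0 < (W x).2) :
    GH (fun x => qq (F x) (V x)) (fun x => qq (tr (V x) (W x) (F x)) (W x)) := by
  have hV0 : ∀ x, V x ≠ 0 := fun x h => by
    have := hV2 x
    rw [h] at this
    exact lt_irrefl 0 this
  have h2 : ∀ (r : ℝ) x, 0 < (V x + cl r • (W x - V x)).2 := by
    intro r x
    have h3 := cl_mem r
    rw [Prod.snd_add, Prod.smul_snd, Prod.snd_sub, smul_eq_mul]
    rcases h3.2.eq_or_lt with h4 | h4
    · rw [h4]
      linarith [hW2 x]
    · nlinarith [mul_pos (sub_pos.2 h4) (hV2 x), mul_nonneg h3.1 (hW2 x).le]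
  have hd : ∀ (r : ℝ) x, 0 < dt (V x) (V x + cl r • (W x - V x)) := by
    intro r x
    have h3 := cl_mem r
    rw [Stp_dt]
    rcases h3.2.eq_or_lt with h4 | h4
    · rw [h4]
      linarith [pos x]
    · linarith [mul_pos (sub_pos.2 h4) (dt_self_pos (hV0 x)), mul_nonneg h3.1 (pos x).le]
  have cV : Continuous fun p : ℝ × V4 => V p.2 := hV.comp continuous_snd
  have cU : Continuous fun p : ℝ × V4 => V p.2 + cl p.1 • (W p.2 - V p.2) :=
    cV.add ((continuous_cl.comp continuous_fst).smul ((hW.comp continuous_snd).sub cV))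
  refine ⟨fun r x => qq (tr (V x) (V x + cl r • (W x - V x)) (F x)) (V x + cl r • (W x - V x)),
    ?_, ?_, ?_, ?_, ?_⟩
  · exact continuous_qq (X := ℝ × V4) (V := fun p => V p.2 + cl p.1 • (W p.2 - V p.2))
      (F := fun p => tr (V p.2) (V p.2 + cl p.1 • (W p.2 - V p.2)) (F p.2)) cU
      (continuous_tr cV cU (hF.comp continuous_snd) fun p => hV0 p.2) fun p => (h2 p.1 p.2).ne'
  · funext x
    dsimp only
    rw [cl_zero, zero_smul, add_zero, tr_self]
  · funext x
    dsimp only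
    rw [cl_one, one_smul, add_sub_cancel]
  · intro r _ x v
    dsimp only
    rw [pV, pW, pF]
  · intro r _ x
    exact det_qq (ind_tr (ind x) (hd r x)) (h2 r x).ne'

end Pool.Agent.H.MP_df7994_gt.PI
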